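import Mathlib
import Pool.Agent.Lib_MP_626dc7_co.Defs
import Pool.Agent.Lib_MP_626dc7_co.Main

set_option autoImplicit false

namespace Pool.Agent.Results.MP_626dc7_co.LinearGrowth

open Pool.Agent.Lib_MP_626dc7_co

/-- `m₂((2,2),n)` grows linearly: `m₂((2,2),n) ≥ n/118` for all `n ≥ 4`. -/
theorem result : ∀ n : ℕ, 4 ≤ n → (1 / 118 : ℝ) * (n : ℝ) ≤ (m₂ n : ℝ) := by
  intro n hn
  have h2 : (n : ℝ) < 118 * (m₂ n : ℝ) := by exact_mod_cast lower_bound hn
  linarith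

end Pool.Agent.Results.MP_626dc7_co.LinearGrowth
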